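import Pool.Agent.Q262.Outer.Defs

/-!
# `γ̃_c(G)` can exceed `γ̃_c(M(G))` by any amount

`G` is the path `0, 1, ..., 4 k - 1` with the chords `{4 i, 4 i + 2}`.
-/

set_option autoImplicit false

namespace Pool.Agent.Results.MP_43f51c_co.ChordedPathFails

open Finset OuterDom

/-- the path on `4 k` vertices with the `k` chords `{4 i, 4 i + 2}` -/
def G (k : ℕ) : SimpleGraph (Fin (4 * k)) where
  Adj u v := u.val + 1 = v.val ∨ v.val + 1 = u.val ∨ (u.val % 4 = 0 ∧ v.val = u.val + 2) ∨
    (v.val % 4 = 0 ∧ u.val = v.val + 2)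
  symm := ⟨fun u v h => by omega⟩
  loopless := ⟨fun u h => by omega⟩

section lower

variable {k : ℕ}

theorem small (D : Finset (Fin (4 * k))) (hD : IsOCD (G k) D) : 4 * k - 4 ≤ D.card := by
  classical
  obtain ⟨hdom, hconn⟩ := hD
  -- the complement has at most four vertices
  suffices h : (Dᶜ).card ≤ 4 by
    have := Finset.card_compl D
    rw [Fintype.card_fin] at this
    have h2 : D.card ≤ 4 * k := by
      have := Finset.card_le_univ D
      rwa [Fintype.card_fin] at this
    omega
  by_cases hex : ∃ x : Fin (4 * k), x ∉ D ∧ x.val % 4 ≠ 3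
  · obtain ⟨x, hx, hx3⟩ := hex
    set i := x.val / 4 with hi
    -- the closed piece around block `i`
    have hall : ∀ y : Fin (4 * k), y ∉ D → (y.val / 4 = i ∧ y.val % 4 ≠ 3) ∨
        (y.val = 4 * i + 3 ∧ ∃ z : Fin (4 * k), z.val = 4 * i + 2 ∧ z ∉ D) ∨
        (y.val + 1 = 4 * i ∧ ∃ z : Fin (4 * k), z.val = 4 * i ∧ z ∉ D) := by
      by_contra hno
      push Not at hno
      obtain ⟨y, hy, hy1, hy2, hy3⟩ := hno
      obtain ⟨u, hu, v, hv, huv, pu, pv⟩ := crossing hconn (a := x) (b := y) hx hy
        (fun y => (y.val / 4 = i ∧ y.val % 4 ≠ 3) ∨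
        (y.val = 4 * i + 3 ∧ ∃ z : Fin (4 * k), z.val = 4 * i + 2 ∧ z ∉ D) ∨
        (y.val + 1 = 4 * i ∧ ∃ z : Fin (4 * k), z.val = 4 * i ∧ z ∉ D))
        (Or.inl ⟨hi.symm, hx3⟩)
        (by
          rintro (⟨h1, h2⟩ | ⟨h1, z, h2, h3⟩ | ⟨h1, z, h2, h3⟩)
          · exact h2 (hy1 h1)
          · exact h3 (hy2 h1 z h2)
          · exact h3 (hy3 h1 z h2))
      have hadj : u.val + 1 = v.val ∨ v.val + 1 = u.val ∨ (u.val % 4 = 0 ∧ v.val = u.val + 2) ∨
        (v.val % 4 = 0 ∧ u.val = v.val + 2) := huv
      rcases pu with ⟨h1, h2⟩ | ⟨h1, z, h2, h3⟩ | ⟨h1, z, h2, h3⟩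
      · -- `u` inside the block
        apply pv
        by_cases c1 : v.val / 4 = i
        · by_cases c2 : v.val % 4 = 3
          · right; left
            refine ⟨by omega, u, by omega, hu⟩
          · exact Or.inl ⟨c1, c2⟩
        · right; right
          refine ⟨by omega, u, by omega, hu⟩
      · -- `u` is the connector on the right
        have hv4 : v.val = 4 * i + 4 := by
          by_contra hne
          apply pv
          left
          omega
        obtain ⟨w, hw, hadjw⟩ := hdom u hu
        have hadj' : u.val + 1 = w.val ∨ w.val + 1 = u.val ∨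
          (u.val % 4 = 0 ∧ w.val = u.val + 2) ∨ (w.val % 4 = 0 ∧ u.val = w.val + 2) := hadjw
        have hw2 : w = v ∨ w = z := by
          rcases hadj' with h | h | h | h
          · left; exact Fin.ext (by omega)
          · right; exact Fin.ext (by omega)
          · omega
          · omega
        rcases hw2 with rfl | rfl
        · exact hv hw
        · exact h3 hw
      · -- `u` is the connector on the left
        have hv4 : v.val + 2 = 4 * i := by
          by_contra hne
          apply pv
          left
          omega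
        obtain ⟨w, hw, hadjw⟩ := hdom u hu
        have hadj' : u.val + 1 = w.val ∨ w.val + 1 = u.val ∨
          (u.val % 4 = 0 ∧ w.val = u.val + 2) ∨ (w.val % 4 = 0 ∧ u.val = w.val + 2) := hadjw
        have hw2 : w = v ∨ w = z := by
          rcases hadj' with h | h | h | h
          · right; exact Fin.ext (by omega)
          · left; exact Fin.ext (by omega)
          · omega
          · omega
        rcases hw2 with rfl | rfl
        · exact hv hw
        · exact h3 hw
    -- not all of `4 i, 4 i + 1, 4 i + 2` are outside `D`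
    have hmiss : ∃ t, t ≤ 2 ∧ ∀ y : Fin (4 * k), y.val = 4 * i + t → y ∈ D := by
      by_contra hno
      push Not at hno
      obtain ⟨y0, hy0, hn0⟩ := hno 0 (by norm_num)
      obtain ⟨y1, hy1, hn1⟩ := hno 1 (by norm_num)
      obtain ⟨y2, hy2, hn2⟩ := hno 2 (by norm_num)
      obtain ⟨w, hw, hadjw⟩ := hdom y1 hn1
      have hadj' : y1.val + 1 = w.val ∨ w.val + 1 = y1.val ∨
          (y1.val % 4 = 0 ∧ w.val = y1.val + 2) ∨ (w.val % 4 = 0 ∧ y1.val = w.val + 2) := hadjw
      have hw2 : w = y0 ∨ w = y2 := by
        rcases hadj' with h | h | h | h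
        · right; exact Fin.ext (by omega)
        · left; exact Fin.ext (by omega)
        · omega
        · omega
      rcases hw2 with rfl | rfl
      · exact hn0 hw
      · exact hn2 hw
    obtain ⟨t, ht, htD⟩ := hmiss
    -- count: the complement maps injectively into `{4i-1,...,4i+3}` minus one element
    have hsub : (Dᶜ).image (fun y => y.val + 1) ⊆
        ((Finset.range 5).image (fun s => 4 * i + s)).erase (4 * i + t + 1) := by
      intro m hm
      rw [Finset.mem_image] at hm
      obtain ⟨y, hy, rfl⟩ := hm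
      rw [Finset.mem_compl] at hy
      rw [Finset.mem_erase, Finset.mem_image]
      constructor
      · intro h
        exact hy (htD y (by omega))
      · rcases hall y hy with ⟨h1, h2⟩ | ⟨h1, -⟩ | ⟨h1, -⟩
        · exact ⟨y.val + 1 - 4 * i, by rw [Finset.mem_range]; omega, by omega⟩
        · exact ⟨4, by simp, by omega⟩
        · exact ⟨0, by simp, by omega⟩
    have hcard := Finset.card_le_card hsub
    rw [Finset.card_image_of_injective _ (by
      intro a b hab
      simp only at hab
      exact Fin.ext (by omega))] at hcard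
    have hmem : 4 * i + t + 1 ∈ (Finset.range 5).image (fun s => 4 * i + s) := by
      rw [Finset.mem_image]
      exact ⟨t + 1, by rw [Finset.mem_range]; omega, by omega⟩
    rw [Finset.card_erase_of_mem hmem] at hcard
    have h5 : ((Finset.range 5).image (fun s => 4 * i + s)).card ≤ 5 := by
      refine Finset.card_image_le.trans ?_
      simp
    omega
  · push Not at hex
    -- all vertices of the complement are connectors, hence there is at most one
    have : (Dᶜ).card ≤ 1 := by
      rw [Finset.card_le_one]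
      intro x hx y hy
      rw [Finset.mem_compl] at hx hy
      by_contra hne
      obtain ⟨u, hu, v, hv, huv, pu, pv⟩ := crossing hconn (a := x) (b := y) hx hy
        (fun z => z = x) rfl (fun h => hne h.symm)
      have h1 := hex u hu
      have h2 := hex v hv
      have hadj : u.val + 1 = v.val ∨ v.val + 1 = u.val ∨ (u.val % 4 = 0 ∧ v.val = u.val + 2) ∨
        (v.val % 4 = 0 ∧ u.val = v.val + 2) := huv
      omega
    omega

end lower

theorem G_connected (k : ℕ) (hk : 0 < k) : (G k).Connected := by
  have h0 : ∀ n (hn : n < 4 * k), (G k).Reachable ⟨0, by omega⟩ ⟨n, hn⟩ := by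
    intro n
    induction n with
    | zero => intro hn; exact SimpleGraph.Reachable.refl _
    | succ n ih =>
      intro hn
      have h1 : (G k).Adj ⟨n, by omega⟩ ⟨n + 1, hn⟩ := Or.inl rfl
      exact (ih (by omega)).trans h1.reachable
  have : Nonempty (Fin (4 * k)) := ⟨⟨0, by omega⟩⟩
  exact SimpleGraph.Connected.mk (fun x y => (h0 x x.2).symm.trans (h0 y y.2))

section upper

variable {k : ℕ}

/-- the chord number `i` -/
def chord (i : Fin k) : (G k).edgeSet :=
  ⟨s(⟨4 * i.val, by omega⟩, ⟨4 * i.val + 2, by omega⟩), by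
    rw [SimpleGraph.mem_edgeSet]
    right; right; left
    exact ⟨by simp, rfl⟩⟩

/-- the path edge `{j, j + 1}` -/
def pe (j : ℕ) (hj : j + 1 < 4 * k) : (G k).edgeSet :=
  ⟨s(⟨j, by omega⟩, ⟨j + 1, hj⟩), by
    rw [SimpleGraph.mem_edgeSet]
    left
    rfl⟩

/-- every edge is a chord or a path edge -/
theorem edge_cases (e : (G k).edgeSet) :
    (∃ i : Fin k, e = chord i) ∨ ∃ (j : ℕ) (hj : j + 1 < 4 * k), e = pe j hj := by
  obtain ⟨e, he⟩ := e
  induction e with
  | _ u v =>
    have hadj : u.val + 1 = v.val ∨ v.val + 1 = u.val ∨ (u.val % 4 = 0 ∧ v.val = u.val + 2) ∨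
        (v.val % 4 = 0 ∧ u.val = v.val + 2) := he
    rcases hadj with h | h | ⟨h, h'⟩ | ⟨h, h'⟩
    · right
      refine ⟨u.val, by omega, ?_⟩
      apply Subtype.ext
      simp only [pe]
      congr 2
      exact Fin.ext h.symm
    · right
      refine ⟨v.val, by omega, ?_⟩
      apply Subtype.ext
      simp only [pe]
      rw [Sym2.eq_swap]
      congr 2
      exact Fin.ext h.symm
    · left
      refine ⟨⟨u.val / 4, by omega⟩, ?_⟩
      apply Subtype.ext
      simp only [chord]
      congr 2
      · exact Fin.ext (by simp only; omega)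
      · exact Fin.ext (by simp only; omega)
    · left
      refine ⟨⟨v.val / 4, by omega⟩, ?_⟩
      apply Subtype.ext
      simp only [chord]
      rw [Sym2.eq_swap]
      congr 2
      · exact Fin.ext (by simp only; omega)
      · exact Fin.ext (by simp only; omega)

theorem chord_ne_pe (i : Fin k) (j : ℕ) (hj : j + 1 < 4 * k) : chord i ≠ pe j hj := by
  intro h
  have h1 := congrArg Subtype.val h
  simp only [chord, pe, Sym2.eq_iff, Fin.ext_iff] at h1
  omega

open Classical in
theorem upper (hk : 0 < k) : ocdNumber (middleGraph (G k)) ≤ 3 * k := by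
  set A : Finset (Fin (4 * k) ⊕ (G k).edgeSet) :=
    Finset.univ.image (fun i : Fin (2 * k) =>
      (Sum.inl ⟨2 * i.val + 1, by omega⟩ : Fin (4 * k) ⊕ (G k).edgeSet)) with hA
  set B : Finset (Fin (4 * k) ⊕ (G k).edgeSet) :=
    Finset.univ.image (fun i : Fin k => (Sum.inr (chord i) : Fin (4 * k) ⊕ (G k).edgeSet))
    with hB
  have memA : ∀ v : Fin (4 * k), v.val % 2 = 1 → (Sum.inl v : Fin (4 * k) ⊕ (G k).edgeSet) ∈
      A ∪ B := by
    intro v hv
    rw [mem_union]
    left
    rw [hA, mem_image]
    refine ⟨⟨v.val / 2, by omega⟩, mem_univ _, ?_⟩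
    congr 1
    exact Fin.ext (by simp only; omega)
  have memB : ∀ i : Fin k, (Sum.inr (chord i) : Fin (4 * k) ⊕ (G k).edgeSet) ∈ A ∪ B := by
    intro i
    rw [mem_union]
    right
    rw [hB, mem_image]
    exact ⟨i, mem_univ _, rfl⟩
  have notA : ∀ v : Fin (4 * k), (Sum.inl v : Fin (4 * k) ⊕ (G k).edgeSet) ∉ A ∪ B →
      v.val % 2 = 0 := by
    intro v hv
    by_contra h
    exact hv (memA v (by omega))
  have notB : ∀ e : (G k).edgeSet, (Sum.inr e : Fin (4 * k) ⊕ (G k).edgeSet) ∉ A ∪ B →
      ∃ (j : ℕ) (hj : j + 1 < 4 * k), e = pe j hj := by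
    intro e he
    rcases edge_cases e with ⟨i, rfl⟩ | h
    · exact absurd (memB i) he
    · exact h
  have pe_out : ∀ (j : ℕ) (hj : j + 1 < 4 * k),
      (Sum.inr (pe j hj) : Fin (4 * k) ⊕ (G k).edgeSet) ∉ A ∪ B := by
    intro j hj h
    rw [mem_union, hA, hB, mem_image, mem_image] at h
    rcases h with ⟨i, -, h⟩ | ⟨i, -, h⟩
    · cases h
    · exact chord_ne_pe i j hj (Sum.inr.inj h)
  have hocd : IsOCD (middleGraph (G k)) (A ∪ B) := by
    constructor
    · rintro (v | e) hx
      · have hv := notA v hx
        by_cases h4 : v.val % 4 = 0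
        · refine ⟨Sum.inr (chord ⟨v.val / 4, by omega⟩), memB _, ?_⟩
          change v ∈ (chord ⟨v.val / 4, by omega⟩).1
          simp only [chord, Sym2.mem_iff, Fin.ext_iff]
          left; omega
        · refine ⟨Sum.inr (chord ⟨v.val / 4, by omega⟩), memB _, ?_⟩
          change v ∈ (chord ⟨v.val / 4, by omega⟩).1
          simp only [chord, Sym2.mem_iff, Fin.ext_iff]
          right; omega
      · obtain ⟨j, hj, rfl⟩ := notB e hx
        by_cases h2 : j % 2 = 1
        · refine ⟨Sum.inl ⟨j, by omega⟩, memA _ h2, ?_⟩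
          change (⟨j, _⟩ : Fin (4 * k)) ∈ (pe j hj : Sym2 (Fin (4 * k)))
          simp [pe]
        · refine ⟨Sum.inl ⟨j + 1, hj⟩, memA _ (by simp only; omega), ?_⟩
          change (⟨j + 1, hj⟩ : Fin (4 * k)) ∈ (pe j hj : Sym2 (Fin (4 * k)))
          simp [pe]
    · have hchain : ∀ (j : ℕ) (hj : j + 1 < 4 * k),
          ((middleGraph (G k)).induce {v | v ∉ A ∪ B}).Reachable
            ⟨Sum.inr (pe 0 (by omega)), pe_out _ _⟩ ⟨Sum.inr (pe j hj), pe_out _ _⟩ := by
        intro j
        induction j with
        | zero => intro hj; exact SimpleGraph.Reachable.refl _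
        | succ j ih =>
          intro hj
          have h1 : ((middleGraph (G k)).induce {v | v ∉ A ∪ B}).Adj
              ⟨Sum.inr (pe j (by omega)), pe_out _ _⟩ ⟨Sum.inr (pe (j + 1) hj), pe_out _ _⟩ := by
            refine ⟨?_, ⟨j + 1, by omega⟩, ?_, ?_⟩
            · intro h
              have h1 := congrArg Subtype.val h
              simp only [pe, Sym2.eq_iff, Fin.ext_iff] at h1
              omega
            · simp [pe]
            · simp [pe]
          exact (ih (by omega)).trans h1.reachable
      have hall : ∀ x : {v : Fin (4 * k) ⊕ (G k).edgeSet | v ∉ A ∪ B},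
          ((middleGraph (G k)).induce {v | v ∉ A ∪ B}).Reachable
            ⟨Sum.inr (pe 0 (by omega)), pe_out _ _⟩ x := by
        rintro ⟨v | e, hx⟩
        · have hv := notA v hx
          have hv1 : v.val + 1 < 4 * k := by omega
          have h1 : ((middleGraph (G k)).induce {v | v ∉ A ∪ B}).Adj
              ⟨Sum.inr (pe v.val hv1), pe_out _ _⟩ ⟨Sum.inl v, hx⟩ := by
            change v ∈ (pe v.val hv1 : Sym2 (Fin (4 * k)))
            simp [pe]
          exact (hchain v.val hv1).trans h1.reachable
        · obtain ⟨j, hj, rfl⟩ := notB e hx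
          exact hchain j hj
      intro x y
      exact (hall x).symm.trans (hall y)
  have h1 := ocd_le hocd
  have h2 : (A ∪ B).card ≤ 2 * k + k := by
    refine (Finset.card_union_le _ _).trans ?_
    have a1 : A.card ≤ 2 * k := by
      rw [hA]
      refine Finset.card_image_le.trans ?_
      simp
    have b1 : B.card ≤ k := by
      rw [hB]
      refine Finset.card_image_le.trans ?_
      simp
    omega
  omega

end upper

/-- For every `N` there is a connected graph `G` with at least two vertices such that the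
outer-connected domination number of `G` is more than `N` larger than that of its middle graph. -/
theorem result : ∀ N : ℕ, ∃ (V : Type) (_ : Fintype V) (G : SimpleGraph V),
    G.Connected ∧ 2 ≤ Fintype.card V ∧
    ocdNumber (middleGraph G) + N < ocdNumber G := by
  intro N
  refine ⟨Fin (4 * (N + 5)), inferInstance, G (N + 5), G_connected _ (by omega), ?_, ?_⟩
  · rw [Fintype.card_fin]; omega
  · have h1 : 4 * (N + 5) - 4 ≤ ocdNumber (G (N + 5)) := le_ocd (fun D hD => small D hD)
    have h2 := upper (k := N + 5) (by omega)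
    omega

end Pool.Agent.Results.MP_43f51c_co.ChordedPathFails
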